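import Mathlib
import Pool.Agent.H22.YBDefs
import Pool.Agent.H22.YB

set_option autoImplicit false

open Pool.Agent.H22.YB in
/-- The free solution on a nonempty set exists and is never injective. -/
theorem Pool.Agent.Results.MP_f0defb_al.NotInjective.result (X : Type) [Nonempty X] :
    (∃ (F : Sol) (i : X → F.Y), IsFree X F i) ∧
      ∀ (F : Sol) (i : X → F.Y), IsFree X F i → ¬ Function.Injective (toStr F) :=
  ⟨⟨FS X, _, free X⟩, not_inj⟩
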